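import Mathlib

set_option autoImplicit false

/-!
# The regular tree of countably infinite degree, as a metric space on `List ℕ`

Vertices are the finite sequences of natural numbers.  `cp x y` is the length of the longest
common initial segment and `dist x y = |x| + |y| - 2 cp x y` is the graph distance in the tree in
which every sequence is joined to its one-letter extensions.
-/

namespace Pool.Agent.helper58.Tree

/-- The length of the longest common initial segment of two finite sequences. -/
def cp : List ℕ → List ℕ → ℕ
  | a :: x, b :: y => if a = b then cp x y + 1 else 0
  | [], _ => 0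
  | _ :: _, [] => 0

@[simp] lemma cp_nil_left (y : List ℕ) : cp [] y = 0 := by
  cases y <;> rfl

@[simp] lemma cp_nil_right (x : List ℕ) : cp x [] = 0 := by
  cases x <;> rfl

lemma cp_cons (a b : ℕ) (x y : List ℕ) :
    cp (a :: x) (b :: y) = if a = b then cp x y + 1 else 0 := rfl

lemma cp_self (x : List ℕ) : cp x x = x.length := by
  induction x with
  | nil => rfl
  | cons a x ih => simp [cp_cons, ih]

lemma cp_comm (x y : List ℕ) : cp x y = cp y x := by
  induction x generalizing y with
  | nil => simp
  | cons a x ih =>
    cases y with
    | nil => simp
    | cons b y =>
      rw [cp_cons, cp_cons, ih y]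
      by_cases h : a = b
      · simp [h]
      · simp [h, Ne.symm h]

lemma cp_le_left (x y : List ℕ) : cp x y ≤ x.length := by
  induction x generalizing y with
  | nil => simp
  | cons a x ih =>
    cases y with
    | nil => simp
    | cons b y =>
      rw [cp_cons]
      split
      · simpa using ih y
      · simp

lemma cp_le_right (x y : List ℕ) : cp x y ≤ y.length := by
  rw [cp_comm]; exact cp_le_left y x

lemma cp_ultra (x y z : List ℕ) : min (cp x y) (cp y z) ≤ cp x z := by
  induction x generalizing y z with
  | nil => simp
  | cons a x ih =>
    cases y with
    | nil => simp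
    | cons b y =>
      cases z with
      | nil => simp
      | cons c z =>
        simp only [cp_cons]
        by_cases h1 : a = b
        · by_cases h2 : b = c
          · subst h1; subst h2
            have := ih y z
            simp only [if_true]
            omega
          · simp [h2]
        · simp [h1]

lemma eq_of_cp_eq (x y : List ℕ) (h1 : cp x y = x.length) (h2 : x.length = y.length) :
    x = y := by
  induction x generalizing y with
  | nil =>
    cases y with
    | nil => rfl
    | cons b y => simp at h2
  | cons a x ih =>
    cases y with
    | nil => simp at h2
    | cons b y =>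
      rw [cp_cons] at h1
      split at h1
      · rename_i h
        rw [h, ih y (by simpa using h1) (by simpa using h2)]
      · simp at h1

lemma cp_take (x y : List ℕ) (k : ℕ) : cp (x.take k) y = min k (cp x y) := by
  induction x generalizing y k with
  | nil => simp
  | cons a x ih =>
    cases k with
    | zero => simp
    | succ k =>
      cases y with
      | nil => simp
      | cons b y =>
        rw [List.take_succ_cons, cp_cons, cp_cons]
        split
        · rw [ih]; omega
        · simp

lemma cp_take_right (x y : List ℕ) (k : ℕ) : cp x (y.take k) = min k (cp x y) := by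
  rw [cp_comm, cp_take, cp_comm]

/-- Appending a run of a letter which does not occur in `b` does not change `cp _ b`. -/
lemma cp_append_replicate (p b : List ℕ) (k l : ℕ) (hl : l ∉ b) :
    cp (p ++ List.replicate k l) b = cp p b := by
  induction p generalizing b with
  | nil =>
    cases k with
    | zero => simp
    | succ k =>
      cases b with
      | nil => simp
      | cons c b =>
        have : l ≠ c := by
          intro h; apply hl; simp [h]
        simp [List.replicate_succ, cp_cons, this]
  | cons a p ih =>
    cases b with
    | nil => simp
    | cons c b =>
      have hl' : l ∉ b := fun h => hl (List.mem_cons_of_mem _ h)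
      rw [List.cons_append, cp_cons, cp_cons, ih b hl']

/-- The graph distance of the tree. -/
def dist (x y : List ℕ) : ℕ := x.length + y.length - 2 * cp x y

lemma dist_comm (x y : List ℕ) : dist x y = dist y x := by
  unfold dist; rw [cp_comm x y]; omega

@[simp] lemma dist_self (x : List ℕ) : dist x x = 0 := by
  unfold dist; rw [cp_self]; omega

lemma dist_eq_zero {x y : List ℕ} : dist x y = 0 ↔ x = y := by
  constructor
  · intro h
    have h1 := cp_le_left x y
    have h2 := cp_le_right x y
    unfold dist at h
    apply eq_of_cp_eq <;> omega
  · rintro rfl; simp

lemma dist_triangle (x y z : List ℕ) : dist x z ≤ dist x y + dist y z := by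
  have h1 := cp_le_left x y
  have h2 := cp_le_right x y
  have h3 := cp_le_left y z
  have h4 := cp_le_right y z
  have h5 := cp_le_left x z
  have h6 := cp_le_right x z
  have h7 := cp_ultra x y z
  unfold dist
  omega

/-- The four point condition. -/
lemma four_point (x y z w : List ℕ) :
    dist x y + dist z w ≤ max (dist x z + dist y w) (dist x w + dist y z) := by
  have a1 := cp_le_left x y
  have a2 := cp_le_right x y
  have b1 := cp_le_left z w
  have b2 := cp_le_right z w
  have c1 := cp_le_left x z
  have c2 := cp_le_right x z
  have d1 := cp_le_left y w
  have d2 := cp_le_right y w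
  have e1 := cp_le_left x w
  have e2 := cp_le_right x w
  have f1 := cp_le_left y z
  have f2 := cp_le_right y z
  have key : min (cp x z + cp y w) (cp x w + cp y z) ≤ cp x y + cp z w := by
    have u1 := cp_ultra x z y
    have u2 := cp_ultra x w y
    have u3 := cp_ultra z x w
    have u4 := cp_ultra z y w
    rw [cp_comm z y] at u1
    rw [cp_comm w y] at u2
    rw [cp_comm z x] at u3
    rw [cp_comm z y] at u4
    omega
  unfold dist
  omega

lemma dist_even (x y z : List ℕ) : ∃ k, dist x y + dist y z + dist x z = 2 * k := by
  have a1 := cp_le_left x y
  have a2 := cp_le_right x y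
  have b1 := cp_le_left y z
  have b2 := cp_le_right y z
  have c1 := cp_le_left x z
  have c2 := cp_le_right x z
  refine ⟨x.length + y.length + z.length - cp x y - cp y z - cp x z, ?_⟩
  unfold dist
  omega

/-- Geodesics. -/
lemma exists_geodesic (x y : List ℕ) (m : ℕ) (hm : m ≤ dist x y) :
    ∃ p, dist x p = m ∧ dist p y + m = dist x y := by
  have h1 := cp_le_left x y
  have h2 := cp_le_right x y
  unfold dist at hm
  by_cases h : m ≤ x.length - cp x y
  · refine ⟨x.take (x.length - m), ?_, ?_⟩
    · unfold dist
      rw [cp_take_right, cp_self, List.length_take]
      omega
    · unfold dist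
      rw [cp_take, List.length_take]
      omega
  · refine ⟨y.take (cp x y + (m - (x.length - cp x y))), ?_, ?_⟩
    · unfold dist
      rw [cp_take_right, List.length_take]
      omega
    · unfold dist
      rw [cp_take, cp_self, List.length_take]
      omega

/-- From every vertex one can leave a finite set by a fresh branch. -/
lemma exists_fresh (p : List ℕ) (B : Finset (List ℕ)) (k : ℕ) :
    ∃ y, dist y p = k ∧ ∀ b ∈ B, dist y b = k + dist p b := by
  obtain ⟨l, hl⟩ : ∃ l : ℕ, ∀ b ∈ insert p B, l ∉ b := by
    obtain ⟨l, hl⟩ := Infinite.exists_notMem_finset
      ((insert p B).biUnion fun b => b.toFinset : Finset ℕ)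
    refine ⟨l, fun b hb hlb => hl ?_⟩
    rw [Finset.mem_biUnion]
    exact ⟨b, hb, by simpa using hlb⟩
  refine ⟨p ++ List.replicate k l, ?_, ?_⟩
  · unfold dist
    rw [cp_append_replicate p p k l (hl p (Finset.mem_insert_self _ _)), cp_self]
    simp
    omega
  · intro b hb
    have h1 := cp_le_left p b
    have h2 := cp_le_right p b
    unfold dist
    rw [cp_append_replicate p b k l (hl b (Finset.mem_insert_of_mem hb))]
    simp
    omega

end Pool.Agent.helper58.Tree
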