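import Mathlib
import Pool.Agent.helper58.TreeMetric

set_option autoImplicit false

/-!
# Extension properties of the regular tree
-/

namespace Pool.Agent.helper58.Tree

/-- One point extension of a finite isometry, with control of a finite set `A` which is separated
from the image by the point `b i0`. -/
lemma exists_extension_of_sep {ι : Type*} [Finite ι] (a b : ι → List ℕ)
    (h : ∀ i j, dist (a i) (a j) = dist (b i) (b j)) (i0 : ι) (A : Finset (List ℕ))
    (hA : ∀ s ∈ A, ∀ i, dist s (b i) = dist s (b i0) + dist (b i0) (b i)) (x : List ℕ) :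
    ∃ y, (∀ i, dist y (b i) = dist x (a i)) ∧
      ∀ s ∈ A, dist s y = dist s (b i0) + dist (b i0) y := by
  classical
  have : Nonempty ι := ⟨i0⟩
  have := Fintype.ofFinite ι
  obtain ⟨v, hv⟩ := Finite.exists_max
    (fun i => dist x (a i0) + dist (a i) (a i0) - dist x (a i))
  obtain ⟨k0, hk0⟩ := dist_even x (a i0) (a v)
  have t1 := dist_triangle x (a i0) (a v)
  have t2 := dist_triangle x (a v) (a i0)
  have t3 := dist_triangle (a i0) x (a v)
  have c1 := dist_comm (a i0) x
  have c2 := dist_comm (a v) (a i0)
  -- m is the Gromov product of x and a v at a i0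
  obtain ⟨m, hm⟩ : ∃ m, dist x (a i0) + dist (a i0) (a v) = 2 * m + dist x (a v) := by
    refine ⟨k0 - dist x (a v), ?_⟩
    omega
  obtain ⟨p, hp1, hp2⟩ := exists_geodesic (b i0) (b v) m (by rw [← h]; omega)
  obtain ⟨y, hy1, hy2⟩ := exists_fresh p
    (A ∪ (Finset.univ.image b)) (dist x (a i0) - m)
  have hym : ∀ j, dist y (b j) = dist x (a i0) - m + dist p (b j) := fun j =>
    hy2 _ (Finset.mem_union_right _ (Finset.mem_image_of_mem _ (Finset.mem_univ j)))
  refine ⟨y, ?_, ?_⟩
  · intro j
    rw [hym j]
    -- position of p
    have q1 := four_point p (b j) (b i0) (b v)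
    have q2 := dist_triangle (b v) p (b j)
    have q3 := dist_triangle (b i0) p (b j)
    have cc1 := dist_comm p (b i0)
    have cc2 := dist_comm (b v) p
    have cc3 := dist_comm (b v) (b j)
    have cc4 := dist_comm (b i0) (b j)
    have cc5 := dist_comm (b j) (b v)
    have cc6 := dist_comm (b j) (b i0)
    -- position of x
    have r1 := four_point x (a j) (a i0) (a v)
    have r2 := four_point x (a i0) (a j) (a v)
    have r3 := four_point x (a v) (a j) (a i0)
    have hvj := hv j
    beta_reduce at hvj
    have dd1 := dist_comm (a j) (a i0)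
    have dd2 := dist_comm (a j) (a v)
    have dd3 := dist_comm (a i0) (a j)
    have dd4 := dist_comm (a v) (a j)
    have dd5 := dist_comm (a v) (a i0)
    have e1 := h i0 j
    have e2 := h v j
    have e3 := h i0 v
    have t4 := dist_triangle x (a i0) (a j)
    have t5 := dist_triangle x (a j) (a i0)
    omega
  · intro s hs
    have h1 := hy2 s (Finset.mem_union_left _ hs)
    have h2 := hym i0
    have h3 := hA s hs v
    have h4 := dist_triangle s p (b v)
    have h5 := dist_triangle s (b i0) p
    have cc1 := dist_comm s y
    have cc2 := dist_comm (b i0) y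
    have cc3 := dist_comm p s
    have cc4 := dist_comm p (b i0)
    have e3 := h i0 v
    omega

/-- One point extension of a finite isometry. -/
lemma exists_extension {ι : Type*} [Finite ι] (a b : ι → List ℕ)
    (h : ∀ i j, dist (a i) (a j) = dist (b i) (b j)) (x : List ℕ) :
    ∃ y, ∀ i, dist y (b i) = dist x (a i) := by
  rcases isEmpty_or_nonempty ι with hι | ⟨⟨i0⟩⟩
  · exact ⟨[], fun i => (hι.false i).elim⟩
  · obtain ⟨y, hy, -⟩ := exists_extension_of_sep a b h i0 ∅ (by simp) x
    exact ⟨y, hy⟩

/-- A copy of a finite family on a fresh side of the vertex `u`. -/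
lemma exists_mirror (n : ℕ) (c : Fin n → List ℕ) (u : List ℕ) (A : Finset (List ℕ)) :
    ∃ c' : Fin n → List ℕ, (∀ i j, dist (c' i) (c' j) = dist (c i) (c j)) ∧
      (∀ j, dist u (c' j) = dist u (c j)) ∧
      ∀ s ∈ A, ∀ j, dist s (c' j) = dist s u + dist u (c j) := by
  induction n with
  | zero => exact ⟨c, fun i => i.elim0, fun i => i.elim0, fun s _ i => i.elim0⟩
  | succ n ih =>
    obtain ⟨c0, h1, h2, h3⟩ := ih (fun i => c i.castSucc)
    obtain ⟨y, hy1, hy2⟩ := exists_extension_of_sep
      (ι := Option (Fin n)) (fun o => o.elim u (fun i => c i.castSucc))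
      (fun o => o.elim u c0)
      (by
        rintro (_ | i) (_ | j)
        · simp
        · simpa using (h2 j).symm
        · simpa [dist_comm _ u] using (h2 i).symm
        · simpa using (h1 i j).symm)
      none A
      (by
        rintro s hs (_ | i)
        · simp
        · simpa [h2 i] using h3 s hs i)
      (c (Fin.last n))
    have hyn := hy1 none
    have hys : ∀ i, dist y (c0 i) = dist (c (Fin.last n)) (c i.castSucc) :=
      fun i => hy1 (some i)
    simp only [Option.elim_none] at hyn hy2
    refine ⟨Fin.snoc c0 y, ?_, ?_, ?_⟩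
    · intro i j
      induction i using Fin.lastCases with
      | last =>
        induction j using Fin.lastCases with
        | last => simp
        | cast j => simpa using hys j
      | cast i =>
        induction j using Fin.lastCases with
        | last =>
          simp only [Fin.snoc_castSucc, Fin.snoc_last]
          rw [dist_comm, hys i, dist_comm]
        | cast j => simpa using h1 i j
    · intro j
      induction j using Fin.lastCases with
      | last => simpa [dist_comm u] using hyn
      | cast j => simpa using h2 j
    · intro s hs j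
      induction j using Fin.lastCases with
      | last =>
        simp only [Fin.snoc_last]
        rw [hy2 s hs, dist_comm u y, hyn, dist_comm u]
      | cast j => simpa using h3 s hs j

/-- A vertex far from a finite set. -/
lemma exists_far (B : Finset (List ℕ)) (N : ℕ) : ∃ y, ∀ b ∈ B, N ≤ dist y b := by
  obtain ⟨y, -, hy⟩ := exists_fresh [] B N
  exact ⟨y, fun b hb => by rw [hy b hb]; omega⟩

/-- Equality of all distances truncated at `N`. -/
def Eqv {α : Type*} (N : ℕ) (v w : α → List ℕ) : Prop :=
  ∀ i j, min (dist (v i) (v j)) N = min (dist (w i) (w j)) N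

lemma Eqv.symm {α : Type*} {N : ℕ} {v w : α → List ℕ} (h : Eqv N v w) : Eqv N w v :=
  fun i j => (h i j).symm

lemma Eqv.mono {α : Type*} {N N' : ℕ} {v w : α → List ℕ} (h : Eqv N v w) (hN : N' ≤ N) :
    Eqv N' v w := by
  intro i j
  have := h i j
  omega

/-- Truncated one point extension. -/
lemma exists_trunc_extension {α : Type*} [Finite α] (N : ℕ) (v w : α → List ℕ)
    (h : Eqv (4 * N) v w) (x : List ℕ) :
    ∃ y, ∀ i, min (dist x (v i)) N = min (dist y (w i)) N := by
  classical
  have := Fintype.ofFinite α
  by_cases hx : ∃ i0, dist x (v i0) < N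
  · obtain ⟨i0, hi0⟩ := hx
    obtain ⟨y, hy⟩ := exists_extension (ι := {j // dist (v j) (v i0) < 2 * N})
      (fun j => v j.1) (fun j => w j.1)
      (by
        rintro ⟨i, hi⟩ ⟨j, hj⟩
        have h1 := h i j
        have h2 := dist_triangle (v i) (v i0) (v j)
        have h3 := dist_comm (v i0) (v j)
        simp only
        omega) x
    have hyi0 : dist y (w i0) = dist x (v i0) := hy ⟨i0, by simp; omega⟩
    refine ⟨y, fun j => ?_⟩
    by_cases hj : dist (v j) (v i0) < 2 * N
    · rw [hy ⟨j, hj⟩]
    · have h1 := h j i0
      have h2 := dist_triangle (v j) x (v i0)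
      have h3 := dist_triangle (w j) y (w i0)
      have h4 := dist_comm (v j) x
      have h5 := dist_comm (w j) y
      omega
  · push Not at hx
    obtain ⟨y, hy⟩ := exists_far (Finset.univ.image w) N
    refine ⟨y, fun i => ?_⟩
    have h1 := hx i
    have h2 := hy (w i) (Finset.mem_image_of_mem _ (Finset.mem_univ i))
    omega

end Pool.Agent.helper58.Tree
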