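import Mathlib
import Pool.Agent.helper58.TreeExt

set_option autoImplicit false

/-!
# Counting truncated distance patterns over finite sets in the regular tree
-/

namespace Pool.Agent.helper58.Tree

/-- `S` is contained in a finite set with at most `K` elements. -/
def Cov {X : Type*} (S : Set X) (K : ℕ) : Prop := ∃ F : Finset X, S ⊆ ↑F ∧ F.card ≤ K

lemma Cov.mono {X : Type*} {S T : Set X} {K K' : ℕ} (h : Cov S K) (hST : T ⊆ S) (hK : K ≤ K') :
    Cov T K' := by
  obtain ⟨F, h1, h2⟩ := h
  exact ⟨F, hST.trans h1, h2.trans hK⟩

lemma Cov.image {X Y : Type*} {S : Set X} {K : ℕ} (h : Cov S K) (f : X → Y) :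
    Cov (f '' S) K := by
  classical
  obtain ⟨F, h1, h2⟩ := h
  refine ⟨F.image f, ?_, Finset.card_image_le.trans h2⟩
  rw [Finset.coe_image]
  exact Set.image_mono h1

/-- If `g` factors through `f` then the range of `g` is covered as well as that of `f`. -/
lemma Cov.of_factors {X Y Z : Type*} (f : X → Y) (g : X → Z) {K : ℕ} (h : Cov (Set.range f) K)
    (hfg : ∀ x y, f x = f y → g x = g y) : Cov (Set.range g) K := by
  classical
  rcases isEmpty_or_nonempty X with hX | ⟨⟨x0⟩⟩
  · refine ⟨∅, ?_, by simp⟩
    rintro z ⟨x, -⟩
    exact (hX.false x).elim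
  · have := h.image (fun y => if h : ∃ x, f x = y then g h.choose else g x0)
    refine this.mono ?_ le_rfl
    rintro z ⟨x, rfl⟩
    refine ⟨f x, ⟨x, rfl⟩, ?_⟩
    have hex : ∃ x', f x' = f x := ⟨x, rfl⟩
    simp only [hex, dif_pos]
    exact hfg _ _ hex.choose_spec

/-- Linear bound for the number of truncated distance vectors over a finite family. -/
lemma cov_vectors {ι : Type*} [Fintype ι] (b : ι → List ℕ) (N : ℕ) :
    Cov (Set.range (fun x : List ℕ => fun i => min (dist x (b i)) N))
      ((N + 1) * (N + 1) * (Fintype.card ι + 1)) := by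
  classical
  let g : ι × Fin (N + 1) × Fin (N + 1) → (ι → ℕ) := fun p =>
    fun i => min (p.2.2 + dist ((b p.1).take ((b p.1).length - p.2.1)) (b i)) N
  refine ⟨insert (fun _ => N) (Finset.univ.image g), ?_, ?_⟩
  · rintro f ⟨x, rfl⟩
    by_cases hx : ∃ m, m ≤ N ∧ m ≤ x.length ∧ ∃ i, ∃ s, s ≤ N ∧
        x.take (x.length - m) = (b i).take ((b i).length - s)
    · -- the least such m
      obtain ⟨m, ⟨hm1, hm2, i0, s, hs, hxs⟩, hmin⟩ : ∃ m, (m ≤ N ∧ m ≤ x.length ∧ ∃ i, ∃ s, s ≤ N ∧
        x.take (x.length - m) = (b i).take ((b i).length - s)) ∧ 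
        ∀ m' < m, ¬ (m' ≤ N ∧ m' ≤ x.length ∧ ∃ i, ∃ s, s ≤ N ∧
        x.take (x.length - m') = (b i).take ((b i).length - s)) :=
        ⟨Nat.find hx, Nat.find_spec hx, fun m' hm' => Nat.find_min hx hm'⟩
      rw [Finset.coe_insert, Finset.coe_image]
      refine Set.mem_insert_of_mem _ ⟨(i0, ⟨s, by omega⟩, ⟨m, by omega⟩), by simp, ?_⟩
      funext i
      simp only [g]
      rw [← hxs]
      have e1 := cp_take x (b i) (x.length - m)
      have l1 := cp_le_left x (b i)
      have l2 := cp_le_right x (b i)
      by_cases hc : cp x (b i) ≤ x.length - m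
      · have : m + dist (x.take (x.length - m)) (b i) = dist x (b i) := by
          unfold dist
          rw [e1, List.length_take]
          omega
        rw [this]
      · -- then the common prefix would give a smaller `m`, unless `b i` is far
        have hs' : N < (b i).length - cp x (b i) := by
          by_contra hcon
          apply hmin (x.length - cp x (b i)) (by omega)
          refine ⟨by omega, by omega, i, (b i).length - cp x (b i), by omega, ?_⟩
          apply eq_of_cp_eq
          · rw [cp_take, cp_take_right, List.length_take]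
            omega
          · rw [List.length_take, List.length_take]
            omega
        have h1 : N ≤ dist x (b i) := by
          unfold dist; omega
        have h2 : N ≤ m + dist (x.take (x.length - m)) (b i) := by
          unfold dist
          rw [e1, List.length_take]
          omega
        omega
    · -- all distances are large
      have : (fun i => min (dist x (b i)) N) = fun _ => N := by
        funext i
        have l1 := cp_le_left x (b i)
        have l2 := cp_le_right x (b i)
        by_contra hcon
        apply hx
        have hd : dist x (b i) < N := by omega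
        unfold dist at hd
        refine ⟨x.length - cp x (b i), by omega, by omega, i, (b i).length - cp x (b i),
          by omega, ?_⟩
        apply eq_of_cp_eq
        · rw [cp_take, cp_take_right, List.length_take]
          omega
        · rw [List.length_take, List.length_take]
          omega
      simp only [this]
      simp
  · refine (Finset.card_insert_le _ _).trans ?_
    have h1 : (Finset.univ.image g).card ≤ Fintype.card (ι × Fin (N + 1) × Fin (N + 1)) :=
      Finset.card_image_le
    rw [Fintype.card_prod, Fintype.card_prod, Fintype.card_fin] at h1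
    nlinarith [h1]

/-- The truncated distance matrix of a tuple. -/
def mat {α : Type*} (N : ℕ) (v : α → List ℕ) : α → α → ℕ := fun i j => min (dist (v i) (v j)) N

lemma eqv_iff_mat {α : Type*} {N : ℕ} {v w : α → List ℕ} : Eqv N v w ↔ mat N v = mat N w := by
  constructor
  · intro h; funext i j; exact h i j
  · intro h i j; exact congrFun (congrFun h i) j

/-- Truncated extension for several points. -/
lemma exists_trunc_extension_multi (d N : ℕ) : ∃ N', ∀ {α : Type} [Finite α] (v w : α → List ℕ),
    Eqv N' v w → ∀ x : Fin d → List ℕ, ∃ y : Fin d → List ℕ, Eqv N (Sum.elim v x) (Sum.elim w y) := by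
  induction d with
  | zero =>
    refine ⟨N, fun {α} _ v w h x => ⟨x, ?_⟩⟩
    rintro (i | i) (j | j)
    · exact h i j
    · exact j.elim0
    · exact i.elim0
    · exact i.elim0
  | succ d ih =>
    obtain ⟨N1, hN1⟩ := ih
    refine ⟨4 * N1, fun {α} _ v w h x => ?_⟩
    obtain ⟨y0, hy0⟩ := exists_trunc_extension N1 v w h (x 0)
    have hE : Eqv N1 (fun o : Option α => o.elim (x 0) v) (fun o : Option α => o.elim y0 w) := by
      rintro (_ | i) (_ | j)
      · simp
      · simpa using hy0 j
      · simpa [dist_comm _ (x 0), dist_comm _ y0] using hy0 i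
      · simpa using (h.mono (by omega : N1 ≤ 4 * N1)) i j
    obtain ⟨y, hy⟩ := hN1 _ _ hE (fun i => x i.succ)
    refine ⟨Fin.cons y0 y, ?_⟩
    let e : α ⊕ Fin (d + 1) → Option α ⊕ Fin d := Sum.elim (fun a => Sum.inl (some a))
      (Fin.cons (Sum.inl none) (fun i => Sum.inr i))
    have e1 : Sum.elim v x = (Sum.elim (fun o : Option α => o.elim (x 0) v) fun i => x i.succ) ∘ e := by
      funext i
      rcases i with i | i
      · simp [e]
      · induction i using Fin.cases with
        | zero => simp [e]
        | succ i => simp [e]
    have e2 : Sum.elim w (Fin.cons y0 y) = (Sum.elim (fun o : Option α => o.elim y0 w) y) ∘ e := by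
      funext i
      rcases i with i | i
      · simp [e]
      · induction i using Fin.cases with
        | zero => simp [e]
        | succ i => simp [e]
    rw [e1, e2]
    intro i j
    exact hy (e i) (e j)

/-- Polynomial bound for the number of truncated distance patterns of `d`-tuples over a finite
family. -/
lemma cov_mat (d N : ℕ) : ∃ C, ∀ {ι : Type} [Fintype ι] (b : ι → List ℕ),
    Cov (Set.range (fun x : Fin d → List ℕ => mat N (Sum.elim b x)))
      (C * (Fintype.card ι + 1) ^ d) := by
  induction d with
  | zero =>
    refine ⟨1, fun {ι} _ b => ⟨{mat N (Sum.elim b Fin.elim0)}, ?_, by simp⟩⟩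
    rintro f ⟨x, rfl⟩
    have : x = Fin.elim0 := funext fun i => i.elim0
    simp [this]
  | succ d ih =>
    obtain ⟨C, hC⟩ := ih
    obtain ⟨N', hN'⟩ := exists_trunc_extension_multi d N
    let M := max N' N
    refine ⟨(M + 1) * (M + 1) * (C * 2 ^ d), fun {ι} _ b => ?_⟩
    classical
    obtain ⟨F, hF1, hF2⟩ := cov_vectors b M
    -- representatives
    let rep : (ι → ℕ) → List ℕ := fun f =>
      if h : ∃ x : List ℕ, (fun i => min (dist x (b i)) M) = f then h.choose else []
    have hrep : ∀ x : List ℕ, (fun i => min (dist (rep (fun i => min (dist x (b i)) M)) (b i)) M) =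
        fun i => min (dist x (b i)) M := by
      intro x
      have hex : ∃ x' : List ℕ, (fun i => min (dist x' (b i)) M) = fun i => min (dist x (b i)) M :=
        ⟨x, rfl⟩
      simp only [rep, hex, dif_pos]
      exact hex.choose_spec
    have hG : ∀ r : List ℕ, Cov (Set.range (fun x : Fin d → List ℕ =>
        mat N (Sum.elim (fun o : Option ι => o.elim r b) x)))
        (C * (Fintype.card (Option ι) + 1) ^ d) := fun r =>
      hC (fun o : Option ι => o.elim r b)
    choose G hG1 hG2 using hG
    let e : ι ⊕ Fin (d + 1) → Option ι ⊕ Fin d := Sum.elim (fun a => Sum.inl (some a))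
      (Fin.cons (Sum.inl none) (fun i => Sum.inr i))
    refine ⟨F.biUnion fun f => (G (rep f)).image fun m i j => m (e i) (e j), ?_, ?_⟩
    · rintro m ⟨x, rfl⟩
      rw [Finset.coe_biUnion]
      simp only [Set.mem_iUnion]
      refine ⟨fun i => min (dist (x 0) (b i)) M, hF1 ⟨x 0, rfl⟩, ?_⟩
      rw [Finset.coe_image]
      have hr := hrep (x 0)
      set r := rep (fun i => min (dist (x 0) (b i)) M) with hrdef
      have hE : Eqv N' (fun o : Option ι => o.elim (x 0) b) (fun o : Option ι => o.elim r b) := by
        have hr' : ∀ i, min (dist (x 0) (b i)) N' = min (dist r (b i)) N' := by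
          intro i
          have h1 := congrFun hr i
          beta_reduce at h1
          have h2 : N' ≤ M := le_max_left _ _
          omega
        rintro (_ | i) (_ | j)
        · simp
        · simpa using hr' j
        · simpa [dist_comm _ (x 0), dist_comm _ r] using hr' i
        · simp
      obtain ⟨y, hy⟩ := hN' _ _ hE (fun i => x i.succ)
      refine ⟨mat N (Sum.elim (fun o : Option ι => o.elim r b) y), hG1 r ⟨y, rfl⟩, ?_⟩
      have e1 : Sum.elim b x = (Sum.elim (fun o : Option ι => o.elim (x 0) b)
          fun i => x i.succ) ∘ e := by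
        funext i
        rcases i with i | i
        · simp [e]
        · induction i using Fin.cases with
          | zero => simp [e]
          | succ i => simp [e]
      funext i j
      rw [e1]
      exact (hy (e i) (e j)).symm
    · have hcard : (F.biUnion fun f => (G (rep f)).image fun m i j => m (e i) (e j)).card ≤
          F.card * (C * (Fintype.card (Option ι) + 1) ^ d) := by
        apply Finset.card_biUnion_le_card_mul
        intro f _
        exact Finset.card_image_le.trans (hG2 _)
      refine hcard.trans ?_
      rw [Fintype.card_option]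
      have h1 : (Fintype.card ι + 1 + 1) ^ d ≤ 2 ^ d * (Fintype.card ι + 1) ^ d := by
        rw [← mul_pow]
        exact Nat.pow_le_pow_left (by omega) d
      calc F.card * (C * (Fintype.card ι + 1 + 1) ^ d)
          ≤ ((M + 1) * (M + 1) * (Fintype.card ι + 1)) * (C * (2 ^ d * (Fintype.card ι + 1) ^ d)) :=
            Nat.mul_le_mul hF2 (Nat.mul_le_mul le_rfl h1)
        _ = (M + 1) * (M + 1) * (C * 2 ^ d) * (Fintype.card ι + 1) ^ (d + 1) := by ring

end Pool.Agent.helper58.Tree
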