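import Mathlib
import Pool.Agent.helper58.TreeExt

set_option autoImplicit false

/-!
# Isometry invariant families with no two independent members are finite
-/

namespace Pool.Agent.helper58.Tree

/-- Key combinatorial lemma.  Let `P x c` be an isometry invariant relation between vertices and
`n`-tuples of vertices of the regular tree, such that `P x c` fails when `x` is far from `c`.  If no
two of the sets `{x | P x c}` are independent, then all of them are finite. -/
lemma finite_of_not_independent (n : ℕ) (P : List ℕ → (Fin n → List ℕ) → Prop) (N : ℕ)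
    (hP : ∀ x y c c', (∀ i j, dist (c i) (c j) = dist (c' i) (c' j)) →
      (∀ i, dist x (c i) = dist y (c' i)) → P x c → P y c')
    (c : Fin n → List ℕ)
    (hfar' : ∀ x c', (∀ i j, dist (c i) (c j) = dist (c' i) (c' j)) →
      (∀ i, N ≤ dist x (c' i)) → ¬ P x c')
    (hind : ∀ c', ¬ ((∃ x, P x c ∧ P x c') ∧ (∃ x, P x c ∧ ¬ P x c') ∧
      (∃ x, ¬ P x c ∧ P x c') ∧ (∃ x, ¬ P x c ∧ ¬ P x c'))) :
    {x | P x c}.Finite := by
  classical
  have hfar : ∀ x, (∀ i, N ≤ dist x (c i)) → ¬ P x c := fun x h => hfar' x c (fun _ _ => rfl) h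
  by_contra hinf
  rw [Set.not_finite] at hinf
  -- `n` is positive
  have hn : 0 < n := by
    rcases Nat.eq_zero_or_pos n with h | h
    · subst h
      obtain ⟨x, hx⟩ := hinf.nonempty
      exact absurd hx (hfar x (fun i => i.elim0))
    · exact h
  let i0 : Fin n := ⟨0, hn⟩
  -- a bound on the distances
  obtain ⟨K, hK⟩ : ∃ K, ∀ i j, dist (c i) (c j) ≤ K := by
    obtain ⟨K, hK⟩ := (Set.finite_range (fun p : Fin n × Fin n => dist (c p.1) (c p.2))).bddAbove
    exact ⟨K, fun i j => hK ⟨(i, j), rfl⟩⟩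
  have hbound : ∀ x, P x c → ∀ j, dist x (c j) < N + K + 1 := by
    intro x hx j
    by_contra hj
    have : ∀ i, N ≤ dist x (c i) := by
      intro i
      have := dist_triangle x (c i) (c j)
      have := hK i j
      omega
    exact hfar x this hx
  -- free points
  obtain ⟨z, hz, z', hz', hzz', hzd⟩ : ∃ z, P z c ∧ ∃ z', P z' c ∧ z ≠ z' ∧
      ∀ i, dist z (c i) = dist z' (c i) := by
    have : ¬ Set.InjOn (fun x => fun i => dist x (c i)) {x | P x c} := by
      intro hinj
      apply hinf
      apply Set.Finite.of_finite_image _ hinj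
      apply Set.Finite.subset (s := {f : Fin n → ℕ | ∀ i, f i < N + K + 1})
      · exact Set.Finite.pi' (t := fun _ => Set.Iio (N + K + 1)) (fun _ => Set.finite_Iio _)
      · rintro f ⟨x, hx, rfl⟩ i
        exact hbound x hx i
    unfold Set.InjOn at this
    push Not at this
    obtain ⟨z, hz, z', hz', h1, h2⟩ := this
    exact ⟨z, hz, z', hz', h2, fun i => congrFun h1 i⟩
  -- choose a free point at maximal distance from `c i0`
  let S : Set ℕ := {m | ∃ x, P x c ∧ (∃ x', x' ≠ x ∧ ∀ i, dist x' (c i) = dist x (c i)) ∧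
    dist x (c i0) = m}
  have hS : S.Nonempty := ⟨_, z, hz, ⟨z', hzz'.symm, fun i => (hzd i).symm⟩, rfl⟩
  have hSb : BddAbove S := by
    refine ⟨N + K + 1, ?_⟩
    rintro m ⟨x, hx, -, rfl⟩
    exact (hbound x hx i0).le
  obtain ⟨x0, hx0, ⟨x1, hx10, hx1d⟩, hx0m⟩ := Nat.sSup_mem hS hSb
  have hmax : ∀ x, P x c → (∃ x', x' ≠ x ∧ ∀ i, dist x' (c i) = dist x (c i)) →
      dist x (c i0) ≤ dist x0 (c i0) := by
    intro x hx hxf
    rw [hx0m]
    exact le_csSup hSb ⟨x, hx, hxf, rfl⟩
  have hr : 0 < dist x1 x0 := by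
    rcases Nat.eq_zero_or_pos (dist x1 x0) with h | h
    · exact absurd (dist_eq_zero.mp h) hx10
    · exact h
  -- mirror `(c, x1)` at `x0`
  obtain ⟨d, hd1, hd2, hd3⟩ := exists_mirror (n + 1) (Fin.snoc c x1) x0
    (insert x1 (Finset.univ.image c))
  let c' : Fin n → List ℕ := fun i => d i.castSucc
  let y1 := d (Fin.last n)
  have hc'c' : ∀ i j, dist (c' i) (c' j) = dist (c i) (c j) := by
    intro i j; simpa [c'] using hd1 i.castSucc j.castSucc
  have hx0c' : ∀ j, dist x0 (c' j) = dist x0 (c j) := by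
    intro j; simpa [c'] using hd2 j.castSucc
  have hy1c' : ∀ i, dist y1 (c' i) = dist x1 (c i) := by
    intro i; simpa [c', y1] using hd1 (Fin.last n) i.castSucc
  have hx1c' : ∀ i, dist x1 (c' i) = dist x1 x0 + dist x0 (c i) := by
    intro i; simpa [c'] using hd3 x1 (Finset.mem_insert_self _ _) i.castSucc
  have hcy1 : ∀ i, dist (c i) y1 = dist (c i) x0 + dist x0 x1 := by
    intro i
    simpa [y1] using hd3 (c i)
      (Finset.mem_insert_of_mem (Finset.mem_image_of_mem _ (Finset.mem_univ i))) (Fin.last n)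
  have hPx1 : P x1 c := hP x0 x1 c c (fun _ _ => rfl) (fun i => (hx1d i).symm) hx0
  -- `x1` is not in the mirrored set
  have hnot1 : ¬ P x1 c' := by
    intro hcon
    -- transport to `c`
    obtain ⟨u, hu⟩ := exists_extension c' c hc'c' x1
    obtain ⟨f, hf0, hf⟩ := exists_fresh x0 (insert x1 (Finset.univ.image c')) (dist x1 x0)
    have hfx1 : dist f x1 = dist x1 x0 + dist x0 x1 := hf x1 (Finset.mem_insert_self _ _)
    have hfc' : ∀ i, dist f (c' i) = dist x1 x0 + dist x0 (c' i) := fun i =>
      hf _ (Finset.mem_insert_of_mem (Finset.mem_image_of_mem _ (Finset.mem_univ i)))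
    obtain ⟨u', hu'⟩ := exists_extension (ι := Option (Fin n)) (fun o => o.elim x1 c')
      (fun o => o.elim u c)
      (by
        rintro (_ | i) (_ | j)
        · simp
        · simpa using (hu j).symm
        · simpa [dist_comm _ x1, dist_comm _ u] using (hu i).symm
        · simpa using hc'c' i j) f
    have hu'u : dist u' u = dist f x1 := hu' none
    have hu'c : ∀ i, dist u' (c i) = dist f (c' i) := fun i => hu' (some i)
    have hPu : P u c := hP x1 u c' c hc'c' (fun i => (hu i).symm) hcon
    have hfree : ∃ x', x' ≠ u ∧ ∀ i, dist x' (c i) = dist u (c i) := by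
      refine ⟨u', ?_, ?_⟩
      · rintro rfl
        rw [dist_self, hfx1] at hu'u
        omega
      · intro i
        rw [hu'c i, hfc' i, hu i, hx1c' i, hx0c' i]
    have := hmax u hPu hfree
    rw [hu i0, hx1c' i0] at this
    omega
  -- `y1` is not in the original set
  have hnot2 : ¬ P y1 c := by
    intro hcon
    obtain ⟨f, hf0, hf⟩ := exists_fresh x0 (insert y1 (Finset.univ.image c)) (dist x1 x0)
    have hfy1 : dist f y1 = dist x1 x0 + dist x0 y1 := hf y1 (Finset.mem_insert_self _ _)
    have hfc : ∀ i, dist f (c i) = dist x1 x0 + dist x0 (c i) := fun i =>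
      hf _ (Finset.mem_insert_of_mem (Finset.mem_image_of_mem _ (Finset.mem_univ i)))
    have hfree : ∃ x', x' ≠ y1 ∧ ∀ i, dist x' (c i) = dist y1 (c i) := by
      refine ⟨f, ?_, ?_⟩
      · rintro rfl
        rw [dist_self] at hfy1
        omega
      · intro i
        rw [hfc i, dist_comm y1, hcy1 i, dist_comm x0 x1, dist_comm x0 (c i)]
        omega
    have h1 := hmax y1 hcon hfree
    have h2 := hcy1 i0
    rw [dist_comm (c i0) y1, dist_comm (c i0) x0, dist_comm x0 x1] at h2
    omega
  -- a point far from both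
  obtain ⟨w, hw⟩ := exists_far (Finset.univ.image c ∪ Finset.univ.image c') N
  refine hind c' ⟨⟨x0, hx0, ?_⟩, ⟨x1, hPx1, hnot1⟩, ⟨y1, hnot2, ?_⟩, ⟨w, ?_, ?_⟩⟩
  · exact hP x0 x0 c c' (fun i j => (hc'c' i j).symm) (fun i => (hx0c' i).symm) hx0
  · exact hP x1 y1 c c' (fun i j => (hc'c' i j).symm) (fun i => (hy1c' i).symm) hPx1
  · exact hfar w fun i => hw _ (Finset.mem_union_left _
      (Finset.mem_image_of_mem _ (Finset.mem_univ i)))
  · exact hfar' w c' (fun i j => (hc'c' i j).symm) fun i => hw _ (Finset.mem_union_right _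
      (Finset.mem_image_of_mem _ (Finset.mem_univ i)))

end Pool.Agent.helper58.Tree
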