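import Mathlib
import Pool.Agent.helper58.TreeExt
import Pool.Agent.helper58.TreeIndep
import Pool.Agent.helper58.TreeCount

set_option autoImplicit false

/-!
# First-order formulas in the regular tree depend on truncated distances only
-/

namespace Pool.Agent.helper58.Tree

open FirstOrder FirstOrder.Language

/-- The regular tree of countably infinite degree, as a simple graph on `List ℕ`. -/
def treeGraph : SimpleGraph (List ℕ) where
  Adj x y := dist x y = 1
  symm := ⟨fun x y h => by rw [dist_comm]; exact h⟩
  loopless := ⟨fun x h => by simp at h⟩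

/-- The regular tree as a first-order structure. -/
@[instance_reducible]
def treeStructure : Language.graph.Structure (List ℕ) := treeGraph.structure

attribute [local instance] treeStructure

lemma relMap_adj (x : Fin 2 → List ℕ) :
    Structure.RelMap (L := Language.graph) (M := List ℕ) adj x ↔ dist (x 0) (x 1) = 1 := Iff.rfl

/-- Every term of the language of graphs is a variable. -/
lemma term_realize {β : Type*} (t : Language.graph.Term β) :
    ∃ i, ∀ v : β → List ℕ, t.realize v = v i := by
  cases t with
  | var i => exact ⟨i, fun v => rfl⟩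
  | func f _ => exact isEmptyElim f

/-- Truth of a formula depends on truncated distances only. -/
lemma exists_qe {α : Type} [Finite α] {n : ℕ} (φ : Language.graph.BoundedFormula α n) :
    ∃ N, ∀ (v w : α → List ℕ) (xs ys : Fin n → List ℕ),
      Eqv N (Sum.elim v xs) (Sum.elim w ys) → (φ.Realize v xs ↔ φ.Realize w ys) := by
  induction φ with
  | falsum => exact ⟨0, fun v w xs ys _ => Iff.rfl⟩
  | equal t₁ t₂ =>
    obtain ⟨i, hi⟩ := term_realize t₁
    obtain ⟨j, hj⟩ := term_realize t₂
    refine ⟨1, fun v w xs ys h => ?_⟩
    simp only [BoundedFormula.Realize, hi, hj]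
    rw [← dist_eq_zero, ← dist_eq_zero]
    have := h i j
    omega
  | rel R ts =>
    rename_i m l
    cases R
    obtain ⟨i, hi⟩ := term_realize (ts 0)
    obtain ⟨j, hj⟩ := term_realize (ts 1)
    refine ⟨2, fun v w xs ys h => ?_⟩
    simp only [BoundedFormula.Realize]
    rw [relMap_adj, relMap_adj]
    simp only [hi, hj]
    have := h i j
    omega
  | imp φ₁ φ₂ ih1 ih2 =>
    obtain ⟨N1, h1⟩ := ih1
    obtain ⟨N2, h2⟩ := ih2
    refine ⟨max N1 N2, fun v w xs ys h => ?_⟩
    simp only [BoundedFormula.Realize]
    rw [h1 v w xs ys (h.mono (le_max_left _ _)), h2 v w xs ys (h.mono (le_max_right _ _))]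
  | all φ ih =>
    rename_i m
    obtain ⟨N, hN⟩ := ih
    have key : ∀ (v w : α → List ℕ) (xs ys : Fin m → List ℕ),
        Eqv (4 * N) (Sum.elim v xs) (Sum.elim w ys) →
        (∀ a, φ.Realize w (Fin.snoc ys a)) → ∀ a, φ.Realize v (Fin.snoc xs a) := by
      intro v w xs ys h hall x
      obtain ⟨y, hy⟩ := exists_trunc_extension N _ _ h x
      refine (hN v w (Fin.snoc xs x) (Fin.snoc ys y) ?_).mpr (hall y)
      have h' := h.mono (by omega : N ≤ 4 * N)
      rintro (i | i) (j | j)
      · exact h' (Sum.inl i) (Sum.inl j)
      · induction j using Fin.lastCases with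
        | last => simpa [dist_comm _ x, dist_comm _ y] using hy (Sum.inl i)
        | cast j => simpa using h' (Sum.inl i) (Sum.inr j)
      · induction i using Fin.lastCases with
        | last => simpa using hy (Sum.inl j)
        | cast i => simpa using h' (Sum.inr i) (Sum.inl j)
      · induction i using Fin.lastCases with
        | last =>
          induction j using Fin.lastCases with
          | last => simp
          | cast j => simpa using hy (Sum.inr j)
        | cast i =>
          induction j using Fin.lastCases with
          | last => simpa [dist_comm _ x, dist_comm _ y] using hy (Sum.inr i)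
          | cast j => simpa using h' (Sum.inr i) (Sum.inr j)
    refine ⟨4 * N, fun v w xs ys h => ?_⟩
    simp only [BoundedFormula.Realize]
    exact ⟨key w v ys xs h.symm, key v w xs ys h⟩

/-- Version for formulas without bound variables left. -/
lemma exists_qe_formula {α : Type} [Finite α] (φ : Language.graph.Formula α) :
    ∃ N, ∀ v w : α → List ℕ, Eqv N v w → (φ.Realize v ↔ φ.Realize w) := by
  obtain ⟨N, hN⟩ := exists_qe (n := 0) φ
  refine ⟨N, fun v w h => ?_⟩
  unfold Formula.Realize
  apply hN v w
  rintro (i | i) (j | j)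
  · exact h i j
  · exact j.elim0
  · exact i.elim0
  · exact i.elim0

/-- Polynomial bound for the number of traces. -/
lemma cov_traces {β : Type} [Finite β] (d : ℕ) (φ : Language.graph.Formula (Fin d ⊕ β)) :
    ∃ C, ∀ (k : ℕ) (b : Fin k → β → List ℕ),
      Cov (Set.range (fun a : Fin d → List ℕ => {i : Fin k | φ.Realize (Sum.elim a (b i))}))
        (C * (k + 1) ^ d) := by
  classical
  have := Fintype.ofFinite β
  obtain ⟨N, hN⟩ := exists_qe_formula φ
  obtain ⟨C, hC⟩ := cov_mat d N
  refine ⟨C * (Fintype.card β + 1) ^ d, fun k b => ?_⟩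
  have h1 := hC (fun p : Fin k × β => b p.1 p.2)
  have h2 : Cov (Set.range (fun a : Fin d → List ℕ => {i : Fin k | φ.Realize (Sum.elim a (b i))}))
      (C * (Fintype.card (Fin k × β) + 1) ^ d) := by
    refine Cov.of_factors _ _ h1 ?_
    intro x y hxy
    ext i
    simp only [Set.mem_ofPred_eq]
    apply hN
    rw [← eqv_iff_mat] at hxy
    rintro (s | s) (t | t)
    · exact hxy (Sum.inr s) (Sum.inr t)
    · exact hxy (Sum.inr s) (Sum.inl (i, t))
    · exact hxy (Sum.inl (i, s)) (Sum.inr t)
    · simp
  refine h2.mono le_rfl ?_
  rw [Fintype.card_prod, Fintype.card_fin]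
  calc C * (k * Fintype.card β + 1) ^ d
      ≤ C * ((Fintype.card β + 1) * (k + 1)) ^ d :=
        Nat.mul_le_mul le_rfl (Nat.pow_le_pow_left (by nlinarith) d)
    _ = C * (Fintype.card β + 1) ^ d * (k + 1) ^ d := by rw [mul_pow]; ring

end Pool.Agent.helper58.Tree
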